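import Pool.Agent.Helper33.PS.Mods
import Pool.Agent.Helper33.PS.BlockDir
import Pool.Agent.Helper33.PT.Defs
import Pool.Agent.Helper36.PT.Mob
import Pool.Agent.Helper93.RatIso

/-!
# Plan T, module T-WIN: consecutive stars and fixed places from stars on an arithmetic progression
-/

set_option autoImplicit false

open Finset Polynomial

namespace Pool.Agent.Helper98.PT

open Pool.Agent.Helper33 Pool.Agent.Helper33.UB Pool.Agent.Helper51.RatTree Pool.Agent.Helper55.RD
  Pool.Agent.Helper93.RatODE Pool.Agent.Helper45.FR Pool.Agent.Helper33.PS Pool.Agent.Helper33.PT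

/-- a vertex which sees points with additive mutual orders in different directions -/
lemma exists_vertex {K : Type*} [Field K] (v : DV K) (n : ℕ) (x : ℕ → K) (s : ℕ → ℤ) (D : ℤ)
    (h : ∀ a ≤ n, ∀ b ≤ n, a ≠ b → x a ≠ x b ∧ v.o (x a - x b) = s a + s b - D) :
    ∃ ζ : PV v, ∀ a ≤ n, ∀ b ≤ n, a ≠ b → ζ.dir (x a) ≠ ζ.dir (x b) := by
  obtain ⟨c, hc, hmax⟩ := exists_max_image (range (n + 1)) s ⟨0, by simp⟩
  rw [mem_range] at hc
  refine ⟨PV.mk v (x c) (2 * s c - D), ?_⟩
  have hnn : ∀ a ≤ n, nn v (x c) (2 * s c - D) (x a) = s a + s c - D := by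
    intro a ha
    have h1 := hmax a (mem_range.mpr (by omega))
    unfold nn
    by_cases hac : a = c
    · rw [hac, if_pos rfl]; ring
    · obtain ⟨h2, h3⟩ := h a ha c (by omega) hac
      rw [if_neg h2, h3, min_eq_left (by omega)]
  intro a ha b hb hab
  obtain ⟨h1, h2⟩ := h a ha b hb hab
  rw [Ne, dir_eq_iff_gp h1, hnn a ha, hnn b hb, h2]
  omega

section conv

variable {k K E V W : Type*} [Field k] [Field K] [Field E] [Algebra k K] [Algebra k E] [Algebra K E]
  [IsScalarTower k K E] {P : PSys k K V} {Q : PSys k E W} {n : ℕ}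

/-- forget the derivation -/
def P0 (P : PSys k K V) : PSys k K V where
  pl := P.pl
  ord_finite := P.ord_finite
  sum_ord := P.sum_ord
  D := fun _ => 0
  D_add := by intros; rw [add_zero]
  D_mul := by intros; rw [mul_zero, mul_zero, add_zero]
  e := fun _ => 0
  e_finite := by simp
  ord_D := fun _ _ _ h => absurd rfl h
  ord_D' := fun _ _ _ h => absurd rfl h
  const := P.const

/-- forget the wild ramification -/
def toGalSys (gs : GalW P Q n) : GalSys (P0 P) Q n where
  G := gs.G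
  card_G := gs.card_G
  act := gs.act
  act_spec := gs.act_spec
  res := gs.res
  ram := gs.ram
  ram_pos := gs.ram_pos
  ram_spec := gs.ram_spec
  fib := gs.fib
  e_le := fun _ => Nat.zero_le _
  ramified := fun v hv => by
    change 1 ≤ 0 at hv
    omega

lemma ht_map_leW (gs : GalW P Q n) (z : K) : ht Q (algebraMap K E z) ≤ n * ht P z :=
  ht_map_le (toGalSys gs) z

lemma ht_conjW (gs : GalW P Q n) {σ : E ≃ₐ[k] E} (hσ : σ ∈ gs.G) (y : E) : ht Q (σ y) = ht Q y :=
  ht_conj (toGalSys gs) hσ y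

/-- base change -/
def vhomMapW (gs : GalW P Q n) (w : W) : VHom (algebraMap K E) (P.pl (gs.res w)) (Q.pl w) where
  r := gs.ram w
  r_pos := gs.ram_pos w
  spec y hy := gs.ram_spec w y hy

/-- conjugation at a fixed place -/
def vhomConjW (gs : GalW P Q n) {σ : E ≃ₐ[k] E} (hσ : σ ∈ gs.G) {w : W} (hw : gs.act σ w = w) :
    VHom ((σ : E →+* E).comp (algebraMap K E)) (P.pl (gs.res w)) (Q.pl w) where
  r := gs.ram w
  r_pos := gs.ram_pos w
  spec y hy := by
    have h1 := gs.act_spec σ hσ w (algebraMap K E y)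
    rw [hw] at h1
    change (Q.pl w).o (σ (algebraMap K E y)) = _
    rw [h1, gs.ram_spec w y hy]

end conv

/-- T-WIN: from stars on the arithmetic progression to stars on consecutive windows, and the fixed
places -/
theorem window_star (d n : ℕ) (hd : 2 ≤ d) (κ : ℝ) (hκ : 0 < κ) : ∃ m : ℕ,
    ∀ nw wm J : ℕ, 1 ≤ J → ∃ N' : ℕ,
    ∀ {k K E V W : Type} [Field k] [IsAlgClosed k] [Field K] [Field E] [Algebra k K] [Algebra k E]
    [Algebra K E] [IsScalarTower k K E] [DecidableEq K] (P : PSys k K V) (Q : PSys k E W)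
    (_ : ∀ v, ResK k (P.pl v)) (_ : ∀ w, ResK k (Q.pl w)) (gs : GalW P Q n) (F G : K[X])
    (_ : IsRat F G d) (x : ℕ → K) (N : ℕ) (_ : RatOrbit F G x N) (c : GConst) (_ : c.C1 = 2) (M : ℝ)
    (I : GInst P c N M) (_ : I.x = x) (i : ℕ) (_ : i + N' * J ≤ N) (S : Finset V)
    (_ : ∀ v ∈ S, ∃ ζ : PV (P.pl v), ∀ l l', l ≤ N' → l' ≤ N' → l ≠ l' →
      ζ.dir (x (i + l * J)) ≠ ζ.dir (x (i + l' * J))),
    ∃ Sb ⊆ S, (Sb.card : ℝ) ≤ κ * I.h ∧
      (∀ v ∈ S, v ∉ Sb → ∃ ζ : PV (P.pl v), ∀ a ≤ nw, ∀ b ≤ nw, a ≠ b →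
        ζ.dir (x (i + a)) ≠ ζ.dir (x (i + b))) ∧
      ∀ σ ∈ gs.G, (∀ p : Polynomial (Polynomial E), p ≠ 0 → p.natDegree < m →
          (∀ i, (p.coeff i).natDegree < m) → ∃ j, i ≤ j ∧ j ≤ i + wm ∧
          (p.eval (C (σ (algebraMap K E (x j))))).eval (algebraMap K E (x j)) ≠ 0) →
        ∀ R ⊆ S, (∀ v ∈ R, v ∉ Sb ∧ ∃ w, gs.res w = v ∧ gs.act σ w = w) →
          (R.card : ℝ) ≤ κ * I.h := by
  set n' : ℕ := max n 1 with hn'
  have hn'1 : (1 : ℝ) ≤ n' := by exact_mod_cast le_max_right n 1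
  have hn'0 : (0 : ℝ) < n' := by linarith
  have hnn' : (n : ℝ) ≤ n' := by exact_mod_cast le_max_left n 1
  obtain ⟨m, n₀, hM5⟩ := interp d hd (κ / (8 * n')) (by positivity)
  refine ⟨m, ?_⟩
  intro nw wm J hJ
  obtain ⟨nE, hnE⟩ := energy (d ^ J) (hd.trans (Nat.le_self_pow (by omega) d)) (κ / 8) (by positivity)
  set nw' := max nw (wm + m) + m + 1 + n₀ with hnw'
  set N' := 2 * nw' + 2 + nE + 3 with hN'
  refine ⟨N', ?_⟩
  intro k K E V W _ _ _ _ _ _ _ _ _ P Q hP hQ gs F G hFG x N hx c hc M I hI i hle S hdir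
  subst hI
  have hconst := fun v (c : k) (hc : c ≠ 0) => (hP v).const c hc
  have hidx : ∀ l, l ≤ N' → i + l * J ≤ N := fun l hl => le_trans (by gcongr) hle
  set h := I.h with hh
  have hh0 : 0 ≤ h := I.h_nonneg
  -- coordinates
  set 𝒥 : Finset ℕ := (range (N' + 1)).image fun l => i + l * J with h𝒥
  have hmem : ∀ l, l ≤ N' → i + l * J ∈ 𝒥 := fun l hl =>
    mem_image_of_mem _ (mem_range.mpr (by omega))
  have hJne : ∀ l l', l ≠ l' → i + l * J ≠ i + l' * J := by
    intro l l' hne e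
    exact hne (Nat.eq_of_mul_eq_mul_right (by omega : 0 < J) (by omega))
  obtain ⟨F', G', z, a, b, e, f, hdet, hden, hzx, hFG', hzN, hcα, hcβ, hcγ, hzint, hzdist, hht⟩ :=
    exists_coord P hP hFG hx 𝒥 (hmem 0 (by omega)) (hmem 1 (by omega))
      (hmem 2 (by omega)) (hJne _ _ (by omega)) (hJne _ _ (by omega)) (hJne _ _ (by omega))
      (by
        intro j hj
        obtain ⟨l, hl, rfl⟩ := mem_image.mp hj
        exact hidx l (by have := mem_range.mp hl; omega)) S (by
        intro v hv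
        obtain ⟨ζ, hζ⟩ := hdir v hv
        refine ⟨ζ, ?_⟩
        intro j hj j' hj' hne
        obtain ⟨l, hl, rfl⟩ := mem_image.mp hj
        obtain ⟨l', hl', rfl⟩ := mem_image.mp hj'
        exact hζ l l' (by have := mem_range.mp hl; omega) (by have := mem_range.mp hl'; omega)
          (fun e => hne (by rw [e])))
  -- heights
  have hheight : ∀ j ≤ N, (ht P (z j) : ℝ) ≤ 8 * h := by
    intro j hj
    by_cases hjβ : j = i + 1 * J
    · obtain ⟨t, ht'⟩ := hcβ
      rw [hjβ, ← ht', ht_const P (fun v c hc => hconst v c hc)]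
      push_cast
      positivity
    · have hne : I.x j ≠ I.x (i + 1 * J) := fun e =>
        hjβ (hx.inj _ _ hj (hidx _ (by omega)) e)
      have h1 := hht j hne
      have h2 := ht_cr_le I (hidx 0 (by omega)) (hidx 1 (by omega)) (hidx 2 (by omega)) hj
        (hJne _ _ (by omega)) (hJne _ _ (by omega)) hjβ
      have h3 : (ht P (z j) : ℝ) ≤ ht P (cr (I.x (i + 0 * J)) (I.x (i + 1 * J))
        (I.x (i + 2 * J)) (I.x j)) := by exact_mod_cast h1
      have h4 : 4 * c.C1 * I.h = 8 * h := by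
        rw [hc]
        ring
      rw [h4] at h2
      exact h3.trans h2
  -- the iterate
  obtain ⟨U, W', hUW, hU, hW, hUWtop, -, hit⟩ := exists_iterate hFG'.cop hFG'.dA hFG'.dB (by
      rcases hmax_of_top hFG'.dA hFG'.dB hFG'.top with h3 | h3
      · have := hFG'.dB; omega
      · have := hFG'.dA; omega) (by omega : 1 ≤ d) J
  have hRat : IsRat U W' (d ^ J) := ⟨hUW, hU, hW, hUWtop⟩
  classical
  set Sb := S.filter fun v => ¬ IsGood (P.pl v) (d ^ J) U W' with hSb
  have hstep := hit z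
  have hit1 : ∀ l, W'.eval (z (i + l * J)) ≠ 0 ∧
      U.eval (z (i + l * J)) / W'.eval (z (i + l * J)) = z (i + (l + 1) * J) := by
    intro l
    have h1 := hstep (i + l * J) (fun j _ => ⟨hzN.ne _, hzN.step _⟩)
    rw [show i + (l + 1) * J = i + l * J + J by ring]
    exact h1
  have hbad : (Sb.card : ℝ) ≤ κ / 8 * (8 * h) := by
    apply hnE P U W' hRat (fun l => z (i + l * J))
      ⟨fun l _ => (hit1 l).1, fun l _ => ((hit1 l).2).symm⟩
    · intro l hl l' hl' e
      by_contra hne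
      exact hJne l l' hne (hzN.inj _ _ (hidx l (by omega)) (hidx l' (by omega)) e)
    · intro l hl
      exact hheight _ (hidx l (by omega))
    · intro v hv l _
      exact hzint v (mem_filter.mp hv).1 _
    · intro v hv l hl l' hl' hne
      exact hzdist v (mem_filter.mp hv).1 _ (hmem l (by omega)) _ (hmem l' (by omega)) (hJne l l' hne)
    · intro v hv
      exact (mem_filter.mp hv).2
  -- good reduction
  have hgood : ∀ v ∈ S, v ∉ Sb → IsGood (P.pl v) d F' G' := by
    intro v hv hv3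
    have h1 : IsGood (P.pl v) (d ^ J) U W' := by
      by_contra h
      exact hv3 (mem_filter.mpr ⟨hv, h⟩)
    refine isGood_of_iterate (P.pl v) (hP v) hd hJ hFG' hRat ?_ h1
    intro y hy
    have h2 := hit y 0 (fun j hj => by
      rw [zero_add]
      exact ⟨hy.ne j hj, hy.step j hj⟩)
    rw [zero_add] at h2
    exact h2
  -- the window
  have hwin : ∀ v ∈ S, v ∉ Sb → ∀ a ≤ nw', ∀ b ≤ nw', a ≠ b →
      z (i + a) ≠ z (i + b) ∧ (P.pl v).o (z (i + a) - z (i + b)) = 0 := by
    intro v hv hv3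
    exact window_distinct (P.pl v) (by omega : 1 ≤ d) hFG' (hgood v hv hv3) (z := fun j => z (i + j))
      (n := N' * J) (J := J) (N' := N') hJ le_rfl ⟨fun j _ => hzN.ne _, fun j _ => hzN.step _⟩
      (fun j _ => hzint v hv _) (by
        intro l hl l' hl' hne
        refine ⟨fun e => hJne l l' hne (hzN.inj _ _ (hidx l hl) (hidx l' hl') e), ?_⟩
        exact hzdist v hv _ (hmem l hl) _ (hmem l' hl') (hJne l l' hne)) (by omega)
  refine ⟨Sb, filter_subset _ _, by linarith, ?_, ?_⟩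
  · -- vertices
    intro v hv hv3
    refine exists_vertex (P.pl v) nw (fun j => I.x (i + j))
      (fun j => (P.pl v).o (e * I.x (i + j) + f)) ((P.pl v).o (a * f - b * e)) ?_
    intro a' ha' b' hb' hab
    obtain ⟨h1, h2⟩ := hwin v hv hv3 a' (by omega) b' (by omega) hab
    have h3 : I.x (i + a') - I.x (i + b') ≠ 0 := by
      intro h0
      apply h1
      rw [hzx, hzx, sub_eq_zero.mp h0]
    refine ⟨sub_ne_zero.mp h3, ?_⟩
    rw [hzx, hzx, Helper35.PS.mobius_sub (hden _) (hden _),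
      DV.o_div _ _ _ (mul_ne_zero hdet h3) (mul_ne_zero (hden _) (hden _)),
      (P.pl v).mul _ _ hdet h3, (P.pl v).mul _ _ (hden _) (hden _)] at h2
    omega
  · -- the fixed places
    intro σ hσ hrel R hR hRw
    by_contra hcon
    push Not at hcon
    have hR1 : 1 ≤ R.card := by
      have h1 : (0 : ℝ) < R.card := lt_of_le_of_lt (by positivity) hcon
      exact_mod_cast h1
    have hw : ∀ v : R, ∃ w, gs.res w = v ∧ gs.act σ w = w := fun v => (hRw v v.2).2
    choose wv hres hact using hw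
    set S' : Finset W := R.attach.image wv with hS'
    have hwinj : ∀ v v' : R, wv v = wv v' → v = v' := by
      intro v v' e
      apply Subtype.ext
      rw [← hres v, ← hres v', e]
    have hS'card : S'.card = R.card := by
      rw [hS', card_image_of_injective _ fun v v' e => hwinj v v' e, card_attach]
    -- the two orbits
    set φ : K →+* E := algebraMap K E with hφ
    set ψ : K →+* E := (σ : E →+* E).comp (algebraMap K E) with hψ
    have hfixk : ∀ t : k, ψ (algebraMap k K t) = φ (algebraMap k K t) := by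
      intro t
      change σ (algebraMap K E (algebraMap k K t)) = algebraMap K E (algebraMap k K t)
      rw [← IsScalarTower.algebraMap_apply, AlgEquiv.commutes]
    have horb : Orb F' G' (fun j => z (i + j)) nw' :=
      ⟨fun j _ => hzN.ne _, fun j _ => hzN.step _⟩
    have hF1 := hFG'.map φ
    have hF2 := hFG'.map ψ
    have horb1 := horb.map φ
    have horb2 := horb.map ψ
    have hres0 := Helper33.PS.resultant_ne_zero_of_isRat (by omega : 1 ≤ d) hFG'
    -- local data at the places of S'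
    have hloc : ∀ w ∈ S', ∃ v : V, v ∈ R ∧ Nonempty (VHom φ (P.pl v) (Q.pl w)) ∧
        Nonempty (VHom ψ (P.pl v) (Q.pl w)) := by
      intro w hw
      obtain ⟨v, hv, rfl⟩ := mem_image.mp hw
      refine ⟨v, v.2, ?_, ?_⟩
      · have := vhomMapW gs (wv v)
        rw [hres v] at this
        exact ⟨this⟩
      · have := vhomConjW gs hσ (hact v)
        rw [hres v] at this
        exact ⟨this⟩
    have hcong : ∀ w ∈ S', ∀ j, (Q.pl w).ge 0 (φ (z j)) ∧ (Q.pl w).ge 0 (ψ (z j)) ∧
        (Q.pl w).ge 1 (ψ (z j) - φ (z j)) := by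
      intro w hw j
      obtain ⟨v, hv, ⟨hφw⟩, ⟨hψw⟩⟩ := hloc w hw
      have hvS := hR hv
      refine ⟨hφw.ge_zero (hzint v hvS j), hψw.ge_zero (hzint v hvS j), ?_⟩
      obtain ⟨t, ht⟩ := (hP v).res (z j) (hzint v hvS j)
      have e : ψ (z j) - φ (z j) = ψ (z j - algebraMap k K t) - φ (z j - algebraMap k K t) := by
        rw [map_sub, map_sub, hfixk]
        ring
      rw [e]
      exact DV.ge_sub (hψw.ge_one ht) (hφw.ge_one ht)
    -- heights
    have hnwN : ∀ j ≤ nw', i + j ≤ N := by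
      intro j hj
      have h1 : nw' ≤ N' * J := by
        have : nw' ≤ N' := by omega
        exact this.trans (Nat.le_mul_of_pos_right _ (by omega))
      omega
    have hh1 : ∀ j ≤ nw', (ht Q (φ (z (i + j))) : ℝ) ≤ n' * (8 * h) := by
      intro j hj
      have h1 : ht Q (φ (z (i + j))) ≤ n * ht P (z (i + j)) := ht_map_leW gs _
      have h2 : (ht Q (φ (z (i + j))) : ℝ) ≤ n * ht P (z (i + j)) := by exact_mod_cast h1
      have h3 := hheight (i + j) (hnwN j hj)
      have h4 : (0 : ℝ) ≤ ht P (z (i + j)) := by exact_mod_cast ht_nonneg P _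
      calc (ht Q (φ (z (i + j))) : ℝ) ≤ n * ht P (z (i + j)) := h2
        _ ≤ n' * ht P (z (i + j)) := mul_le_mul_of_nonneg_right hnn' h4
        _ ≤ n' * (8 * h) := mul_le_mul_of_nonneg_left h3 hn'0.le
    have hh2 : ∀ j ≤ nw', (ht Q (ψ (z (i + j))) : ℝ) ≤ n' * (8 * h) := by
      intro j hj
      have h1 : ht Q (ψ (z (i + j))) = ht Q (φ (z (i + j))) := ht_conjW gs hσ _
      rw [h1]
      exact hh1 j hj
    -- M5
    obtain ⟨p, hp0, hpd1, hpd2, hp⟩ := hM5 Q (F'.map φ) (G'.map φ) (F'.map ψ) (G'.map ψ) hF1 hF2 nw'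
      (by omega) (fun j => φ (z (i + j))) (fun j => ψ (z (i + j))) horb1 horb2 (n' * (8 * h)) hh1 hh2 S'
      (by omega) (by
        rw [hS'card]
        have e1 : κ / (8 * n') * (n' * (8 * h)) = κ * h := by
          field_simp
        rw [e1]
        exact hcon.le) (by
        intro w hw
        obtain ⟨v, hv, ⟨hφw⟩, ⟨hψw⟩⟩ := hloc w hw
        have hg := hgood v (hR hv) (hRw v hv).1
        exact ⟨hφw.isGood hres0 hg, hψw.isGood hres0 hg⟩) (by
        intro w hw j _
        exact hcong w hw (i + j))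
    obtain ⟨q, hq0, hq1, hq2, hq⟩ := Helper36.PT.rel_mobius m (φ a) (φ b) (φ e) (φ f)
      (ψ a) (ψ b) (ψ e) (ψ f) (by
        rw [← map_mul, ← map_mul, ← map_sub, Ne, map_eq_zero]
        exact hdet) (by
        rw [← map_mul, ← map_mul, ← map_sub, Ne, map_eq_zero]
        exact hdet) p hp0 hpd1 hpd2
    obtain ⟨j, hj1, hj2, hj3⟩ := hrel q hq0 hq1 hq2
    apply hj3
    obtain ⟨t, rfl⟩ := Nat.exists_eq_add_of_le hj1
    have h1 := hp t (by omega)
    have hz1 : φ (z (i + t)) = (φ a * φ (I.x (i + t)) + φ b) / (φ e * φ (I.x (i + t)) + φ f) := by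
      rw [hzx, map_div₀, map_add, map_add, map_mul, map_mul]
    have hz2 : ψ (z (i + t)) = (ψ a * ψ (I.x (i + t)) + ψ b) / (ψ e * ψ (I.x (i + t)) + ψ f) := by
      rw [hzx, map_div₀, map_add, map_add, map_mul, map_mul]
    rw [hz1, hz2] at h1
    exact hq _ _ (by
      rw [← map_mul, ← map_add, Ne, map_eq_zero]
      exact hden _) (by
      change ψ e * ψ (I.x (i + t)) + ψ f ≠ 0
      rw [← map_mul, ← map_add, Ne, map_eq_zero]
      exact hden _) h1

end Pool.Agent.Helper98.PT
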